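import Mathlib
import Pool.Agent.H890.Gx2

/-!
MP_a3a3cb_ag, Q1: the boundary can be removed. The global index conjecture for log Calabi-Yau pairs
`(X, B)` such that `b B` is Cartier (in particular for all pairs on locally factorial varieties with
coefficients in a finite set of rational numbers) follows from the one for Calabi-Yau varieties
without boundary.
-/

set_option autoImplicit false

namespace Pool.Agent.Results.MP_a3a3cb_ag.BoundaryRemovalGlobalIndex

open FF Pool.Agent.W602.GT Pool.Agent.Y172 Pool.Agent.R887 Pool.Agent.H890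

/-- (1) Let `X` be a normal projective variety over `ℂ` of dimension `n ≥ 1` with function field `K`
(`y` is its generic point, in homogeneous coordinates), and let `B` be an effective `ℚ`-divisor such
that `b B` is Cartier, `b ≥ 2`, and `K_X + B ∼_ℚ 0`. Then there is a normal projective variety `V`
(without boundary) of dimension `n + 2 b - 2`, with generic point `v` and function field `M`,
birational to `X × P ^ (2 b - 2)` (`M` is the field of rational functions in `2 b - 2` variables `t`
over `K`), which is log canonical (klt) if `(X, B)` is, such that for all `s ≥ 1`: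
`2 b s K_V ∼ 0` if `s (K_X + B) ∼ 0`, and `2 b s (K_X + B) ∼ 0` if `s K_V ∼ 0`.

(2) Hence, if `I K_V ∼ 0` for all log canonical varieties `V` of dimension `n + 2 b - 2` with
`K_V ∼_ℚ 0`, then `2 b I (K_X + B) ∼ 0` for all log canonical pairs `(X, B)` of dimension `n` such that
`b B` is Cartier and `K_X + B ∼_ℚ 0`.

(3) The index of the log canonical varieties with `K_V ∼_ℚ 0` is bounded in every dimension if and
only if the index of the log canonical pairs `(X, B)` with `b B` Cartier and `K_X + B ∼_ℚ 0` is bounded
in every dimension for all `b`.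

(4) If the index of the log canonical varieties with `K_V ∼_ℚ 0` is bounded in every dimension, then
for all `d` and all finite sets `Γ` of rational numbers it is bounded for the log canonical pairs
`(X, B)` such that `X` is locally factorial of dimension `d`, the coefficients of `B` are in `Γ`, and
`K_X + B ∼_ℚ 0`. -/
theorem result :
    (∀ (K : Type) [Field K] [Algebra ℂ K] (n b N : ℕ) (y : Fin (N + 1) → K)
      (B : Place ℂ K → ℚ), Algebra.trdeg ℂ K = n → 1 ≤ n → 2 ≤ b → NormalModel y →
      Effective y B → CartierMul y n b B → (∃ s, 0 < s ∧ IndexDivides y n B s) →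
      ∃ (M : Type) (_ : Field M) (_ : Algebra ℂ M) (_ : Algebra K M) (_ : IsScalarTower ℂ K M)
        (t : Fin (2 * b - 2) → M) (N' : ℕ) (v : Fin (N' + 1) → M), AlgebraicIndependent K t ∧
        IntermediateField.adjoin K (Set.range t) = ⊤ ∧ NormalModel v ∧
        Algebra.trdeg ℂ M = (n + (2 * b - 2) : ℕ) ∧
        (LogCanonical y n B → LogCanonical v (n + (2 * b - 2)) 0) ∧
        (Klt y n B → Klt v (n + (2 * b - 2)) 0) ∧
        (∀ s, 0 < s → IndexDivides y n B s →
          IndexDivides v (n + (2 * b - 2)) 0 (2 * b * s)) ∧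
        ∀ s, 0 < s → IndexDivides v (n + (2 * b - 2)) 0 s →
          IndexDivides y n B (2 * b * s)) ∧
    (∀ n b I : ℕ, 2 ≤ b → 0 < I → VarietyIndex (n + (2 * b - 2)) I →
      PairIndex n b (2 * b * I)) ∧
    ((∀ d, ∃ I, 0 < I ∧ VarietyIndex d I) ↔ ∀ d b, 0 < b → ∃ I, 0 < I ∧ PairIndex d b I) ∧
    ((∀ d, ∃ I, 0 < I ∧ VarietyIndex d I) → ∀ (d : ℕ) (Γ : Set ℚ), Γ.Finite →
      ∃ I, 0 < I ∧ FactorialIndex d Γ I) :=
  ⟨fun K _ _ _ _ _ _ _ hn hn1 hb hy hB hcar htriv =>
    index_removal K hb hn1 hn hy hB hcar htriv, fun _ _ _ hb hI h => pairIndex hb hI h,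
    index_iff, factorialIndex⟩

end Pool.Agent.Results.MP_a3a3cb_ag.BoundaryRemovalGlobalIndex
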